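import Pool.Agent.X111.LP.Fin

set_option autoImplicit false

/-!
MP_6a632e_nt. Where the high moments of zeta next to the critical line come from: isolated peaks for `k > 1`, none for `k < 1`.

Let `δ(T) → 0`, `δ(T) log T → ∞`, `s_t = 1/2 + δ + it`. Compare `|ζ(s_t)|^(2k)` with the sum `∑_{|j| ≤ N} |ζ(s_t + ijδ)|^(2k)` over the
arithmetic progression of step `δ` around it.

* For every real `k > 1` there is `c > 0` such that for all `N` the heights `t ∈ [0, T]` with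
  `|ζ(s_t)|^(2k) ≥ c ∑_{|j| ≤ N} |ζ(s_t + ijδ)|^(2k)` contribute at least `c a(k) (2δ)^(-k²) T` to the `2k`-th moment for large `T`; one point
  dominates all `2N` neighbours at once, with a constant that does not depend on `N`.
* For `k < 1` the contribution of these heights is `O(N^(-(1-k)²))` times the moment.
* The mean share `|ζ(s_t)|^(2k) / ∑_{|j| ≤ N} |ζ(s_t + ijδ)|^(2k)` under the moment measure converges to `q_N(k) = E (∑_{|j| ≤ N} |f(ij)|^(2k))^(-1)`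
  with the limit field `f`.

For `k ≤ 2` the moments are over `[0, T]`; for `k > 2` asymptotics are proved off sets `E(T)` of large values, of measure `o(δ^(2k) T)`, and the
lower bound for the contribution of the peaks also holds without removing them.
-/

open Filter Topology MeasureTheory

namespace Pool.Agent.Results.MP_6a632e_nt.IsolatedPeaks

/-- The generalised divisor function at a prime power: `d_k(p^m) = Γ(k + m) / (Γ(k) m!)`. -/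
noncomputable def dk (k : ℝ) (m : ℕ) : ℝ := Real.Gamma (k + m) / (Real.Gamma k * (m.factorial : ℝ))

/-- The arithmetic factor `a(k) = ∏_p (1 - 1/p)^(k²) ∑_m d_k(p^m)² p^(-m)`. -/
noncomputable def ak (k : ℝ) : ℝ :=
  ∏' p : Nat.Primes, ((1 - 1 / (p : ℝ)) ^ (k ^ 2) * ∑' m : ℕ, dk k m ^ 2 / (p : ℝ) ^ m)

/-- The centred normal law of variance `1/2`. -/
noncomputable def ga : Measure ℝ := ProbabilityTheory.gaussianReal 0 (1 / 2)

/-- The law of a sequence of independent standard complex Gaussian variables, as pairs of real and imaginary parts. -/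
noncomputable def noise : Measure (ℕ → ℝ × ℝ) := Measure.infinitePi fun _ => ga.prod ga

/-- The limit field `f(z) = (1 + z/2)^(-k) exp(∑_{n ≥ 1} ξ_n w^n / √n)`, `w = z/(z+2)`, `ξ_{n+1} = ω_n`. -/
noncomputable def field (k : ℝ) (ω : ℕ → ℝ × ℝ) (z : ℂ) : ℂ :=
  (1 + z / 2) ^ (-(k : ℂ)) *
    Complex.exp (∑' n : ℕ, (((ω n).1 : ℂ) + (ω n).2 * Complex.I) * ((z / (z + 2)) ^ (n + 1) / (Real.sqrt (n + 1) : ℂ)))

/-- The values `ζ(1/2 + δ + i (t + j δ))`, `j` an integer. -/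
noncomputable def val (δ t : ℝ) (j : ℤ) : ℂ := riemannZeta (1 / 2 + δ + Complex.I * (t + j * δ))

/-- The sum `∑_{|j| ≤ N} |ζ(1/2 + δ + i (t + j δ))|^(2k)`. -/
noncomputable def tot (k δ : ℝ) (N : ℕ) (t : ℝ) : ℝ := ∑ j ∈ Finset.Icc (-(N : ℤ)) N, ‖val δ t j‖ ^ (2 * k)

/-- The heights at which the value of zeta dominates its neighbours: `b ∑_{|j| ≤ N} |ζ(1/2 + δ + i (t + j δ))|^(2k) ≤ |ζ(1/2 + δ + it)|^(2k)`. -/
def peaks (k b δ : ℝ) (N : ℕ) : Set ℝ := {t | b * tot k δ N t ≤ ‖val δ t 0‖ ^ (2 * k)}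

/-- The restricted moment `(2δ)^(k²) (1/T) ∫_A |ζ(1/2 + δ + it)|^(2k) dt`. -/
noncomputable def mom (k δ T : ℝ) (A : Set ℝ) : ℝ := (2 * δ) ^ (k ^ 2) * (1 / T) * ∫ t in A, ‖val δ t 0‖ ^ (2 * k)

/-- The mean share `q_N(k) = E (∑_{|j| ≤ N} |f(ij)|^(2k))^(-1)`. -/
noncomputable def qq (k : ℝ) (N : ℕ) : ℝ := ∫ ω, 1 / ∑ j ∈ Finset.Icc (-(N : ℤ)) N, ‖field k ω (Complex.I * (j : ℂ))‖ ^ (2 * k) ∂noise

/-- the coefficients -/
lemma dk_lc {k : ℝ} (hk : 0 < k) (m : ℕ) : dk k m = Pool.Agent.H306R2.lc k m := by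
  have hG : Real.Gamma k ≠ 0 := (Real.Gamma_pos_of_pos hk).ne'
  unfold dk
  induction m with
  | zero =>
    unfold Pool.Agent.H306R2.lc
    simp [hG]
  | succ m ih =>
    have h1 : Pool.Agent.H306R2.lc k (m + 1) = Pool.Agent.H306R2.lc k m * ((k + m) / ((m : ℝ) + 1)) := by
      unfold Pool.Agent.H306R2.lc
      rw [Finset.prod_range_succ]
    have hkm : k + (m : ℝ) ≠ 0 := by positivity
    have h2 : Real.Gamma (k + ((m + 1 : ℕ) : ℝ)) = (k + m) * Real.Gamma (k + m) := by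
      rw [← Real.Gamma_add_one hkm]
      congr 1
      push_cast
      ring
    have hf : (m.factorial : ℝ) ≠ 0 := by positivity
    rw [h1, ← ih, h2, Nat.factorial_succ]
    push_cast
    field_simp

/-- the arithmetic factor -/
lemma ak_aF {k : ℝ} (hk : 0 < k) : ak k = Pool.Agent.H306R2.aF k := by
  unfold ak Pool.Agent.H306R2.aF
  refine tprod_congr fun p => ?_
  simp_rw [dk_lc hk, one_div, inv_pow, div_eq_mul_inv]

/-- the field -/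
lemma field_fi (k : ℝ) (ω : ℕ → ℝ × ℝ) : field k ω = Pool.Agent.X111.FL.fi k ω := by
  funext z
  unfold field Pool.Agent.X111.FL.fi Pool.Agent.X111.FL.gf Pool.Agent.X111.JD.nn
  rfl

/-- the values -/
lemma val_zc (δ t : ℝ) (j : ℤ) : val δ t j = Pool.Agent.X111.JD.zc δ j t := by
  unfold val Pool.Agent.X111.JD.zc
  congr 1
  push_cast
  ring

lemma val_zero (δ t : ℝ) : val δ t 0 = Pool.Agent.X111.JD.zc δ 0 t := by
  rw [val_zc, Int.cast_zero]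

lemma tot_eq (k δ : ℝ) (N : ℕ) (t : ℝ) :
    tot k δ N t = ∑ j : Fin (2 * N + 1), ‖Pool.Agent.X111.JD.zc δ (Pool.Agent.X111.LP.la N j) t‖ ^ (2 * k) := by
  unfold tot
  rw [← Pool.Agent.X111.LP.la_sum N fun j => ‖val δ t j‖ ^ (2 * k)]
  refine Finset.sum_congr rfl fun j _ => ?_
  rw [val_zc, Pool.Agent.X111.LP.la_int]

lemma peaks_eq (k b δ : ℝ) (N : ℕ) : peaks k b δ N = Pool.Agent.X111.LP.Pk k b δ N := by
  ext t
  simp only [peaks, Pool.Agent.X111.LP.Pk, Set.mem_ofPred_eq, tot_eq, val_zero]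

lemma qq_eq (k : ℝ) (N : ℕ) : qq k N = Pool.Agent.X111.LP.qN k N := by
  unfold qq Pool.Agent.X111.LP.qN
  refine integral_congr_ae (Eventually.of_forall fun ω => ?_)
  show 1 / ∑ j ∈ Finset.Icc (-(N : ℤ)) N, ‖field k ω (Complex.I * (j : ℂ))‖ ^ (2 * k) = _
  congr 1
  refine Finset.sum_congr rfl fun j _ => ?_
  rw [field_fi, ← Pool.Agent.X111.LP.fi_vz]
  push_cast
  rfl

lemma mom_eq (k δ T : ℝ) (A : Set ℝ) : mom k δ T A = (2 * δ) ^ (k ^ 2) / T * ∫ t in A, ‖Pool.Agent.X111.JD.zc δ 0 t‖ ^ (2 * k) := by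
  unfold mom
  simp_rw [val_zero, mul_one_div]

lemma share_eq (k δ : ℝ) (N : ℕ) (t : ℝ) : ‖val δ t 0‖ ^ (2 * k) * (‖val δ t 0‖ ^ (2 * k) / tot k δ N t) =
    Pool.Agent.X111.LP.Fs k (Pool.Agent.X111.LP.mid N) (fun j => Pool.Agent.X111.JD.zc δ (Pool.Agent.X111.LP.la N j) t) := by
  unfold Pool.Agent.X111.LP.Fs
  rw [tot_eq, val_zero]
  simp only [Pool.Agent.X111.LP.la_mid]

theorem result : ∀ k : ℝ, 0 < k → 0 < ak k ∧ ∃ c C : ℝ, 0 < c ∧ 0 < C ∧ (1 < k → ∀ N : ℕ, c ≤ qq k N) ∧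
    (k ≤ 1 → ∀ N : ℕ, qq k N ≤ C * (1 + (N : ℝ)) ^ (-((1 - k) ^ 2))) ∧
    ∀ δ : ℝ → ℝ, Tendsto δ atTop (𝓝 0) → Tendsto (fun T : ℝ => δ T * Real.log T) atTop atTop →
    ∃ E : ℝ → Set ℝ, (∀ T, MeasurableSet (E T) ∧ E T ⊆ Set.Icc 0 T ∧ (k ≤ 2 → E T = ∅) ∧
        ∀ t ∈ E T, ∃ j : ℤ, (δ T) ^ (-(1 + k / 2)) < ‖val (δ T) t j‖) ∧
      Tendsto (fun T => (volume (E T)).toReal / (T * (δ T) ^ (2 * k))) atTop (𝓝 0) ∧
      Tendsto (fun T => mom k (δ T) T (Set.Icc 0 T \ E T)) atTop (𝓝 (ak k)) ∧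
      ∀ N : ℕ,
        Tendsto (fun T => (2 * δ T) ^ (k ^ 2) * (1 / T) * ∫ t in Set.Icc 0 T \ E T,
          ‖val (δ T) t 0‖ ^ (2 * k) * (‖val (δ T) t 0‖ ^ (2 * k) / tot k (δ T) N t)) atTop (𝓝 (ak k * qq k N)) ∧
        (1 < k → ∀ᶠ T in atTop, c * ak k ≤ mom k (δ T) T ((Set.Icc 0 T \ E T) ∩ peaks k c (δ T) N)) ∧
        (k ≤ 1 → ∀ b : ℝ, 0 < b → ∀ᶠ T in atTop, mom k (δ T) T ((Set.Icc 0 T \ E T) ∩ peaks k b (δ T) N) ≤
          C / b * (1 + (N : ℝ)) ^ (-((1 - k) ^ 2)) * ak k) := by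
  intro k hk
  rw [ak_aF hk]
  refine ⟨Pool.Agent.H306R2.aF_pos hk, ?_⟩
  have main : ∀ c C : ℝ, 0 < c → 0 < C → (1 < k → ∀ N : ℕ, 4 * c ≤ Pool.Agent.X111.LP.qN k N) →
      (k ≤ 1 → ∀ N : ℕ, Pool.Agent.X111.LP.qN k N < C * (1 + (N : ℝ)) ^ (-((1 - k) ^ 2))) →
      ∃ c C : ℝ, 0 < c ∧ 0 < C ∧ (1 < k → ∀ N : ℕ, c ≤ qq k N) ∧
    (k ≤ 1 → ∀ N : ℕ, qq k N ≤ C * (1 + (N : ℝ)) ^ (-((1 - k) ^ 2))) ∧
    ∀ δ : ℝ → ℝ, Tendsto δ atTop (𝓝 0) → Tendsto (fun T : ℝ => δ T * Real.log T) atTop atTop →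
    ∃ E : ℝ → Set ℝ, (∀ T, MeasurableSet (E T) ∧ E T ⊆ Set.Icc 0 T ∧ (k ≤ 2 → E T = ∅) ∧
        ∀ t ∈ E T, ∃ j : ℤ, (δ T) ^ (-(1 + k / 2)) < ‖val (δ T) t j‖) ∧
      Tendsto (fun T => (volume (E T)).toReal / (T * (δ T) ^ (2 * k))) atTop (𝓝 0) ∧
      Tendsto (fun T => mom k (δ T) T (Set.Icc 0 T \ E T)) atTop (𝓝 (Pool.Agent.H306R2.aF k)) ∧
      ∀ N : ℕ,
        Tendsto (fun T => (2 * δ T) ^ (k ^ 2) * (1 / T) * ∫ t in Set.Icc 0 T \ E T,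
          ‖val (δ T) t 0‖ ^ (2 * k) * (‖val (δ T) t 0‖ ^ (2 * k) / tot k (δ T) N t)) atTop (𝓝 (Pool.Agent.H306R2.aF k * qq k N)) ∧
        (1 < k → ∀ᶠ T in atTop, c * Pool.Agent.H306R2.aF k ≤ mom k (δ T) T ((Set.Icc 0 T \ E T) ∩ peaks k c (δ T) N)) ∧
        (k ≤ 1 → ∀ b : ℝ, 0 < b → ∀ᶠ T in atTop, mom k (δ T) T ((Set.Icc 0 T \ E T) ∩ peaks k b (δ T) N) ≤
          C / b * (1 + (N : ℝ)) ^ (-((1 - k) ^ 2)) * Pool.Agent.H306R2.aF k) := by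
    intro c C hc hC h1 h2
    simp_rw [qq_eq, share_eq, mom_eq, peaks_eq, mul_one_div, val_zc]
    refine ⟨c, C, hc, hC, fun h N => by linarith [h1 h N], fun h N => (h2 h N).le, fun δ hδ hδL => ?_⟩
    obtain ⟨E, hE, hvol, hG⟩ := Pool.Agent.X111.LP.exE hk hδ hδL
    refine ⟨E, hE, hvol, Pool.Agent.X111.LP.mo hk hG, fun N => ⟨Pool.Agent.X111.LP.sh hk hG N, fun h =>
      Pool.Agent.X111.LP.pk_low h hδ hδL hG hc (h1 h N), fun h b hb => ?_⟩⟩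
    have h3 := Pool.Agent.X111.LP.pk_up hk hδ hδL hG hb (h2 h N)
    filter_upwards [h3] with T hT
    refine hT.trans (le_of_eq ?_)
    ring
  rcases lt_or_ge 1 k with h | h
  · obtain ⟨c, hc0, hc⟩ := Pool.Agent.X111.LP.qN_low h
    exact main (c / 4) 1 (by positivity) one_pos (fun _ N => by linarith [hc N]) (fun h' => absurd h' (not_le.mpr h))
  · obtain ⟨C, hC0, hC⟩ := Pool.Agent.X111.LP.qN_up hk h
    refine main 1 (2 * C) one_pos (by positivity) (fun h' => absurd h' (not_lt.mpr h)) (fun _ N => ?_)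
    refine lt_of_le_of_lt (hC N) ?_
    have h4 : 0 < C * (1 + (N : ℝ)) ^ (-((1 - k) ^ 2)) := by positivity
    linarith

end Pool.Agent.Results.MP_6a632e_nt.IsolatedPeaks
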