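import Pool.Agent.X117.Lev3

/-!
# How often Hardy's function and its derivatives take a given value

Unconditionally, for every `n ≥ 0`: for `κ ≥ 0` and `ε > 0` every real `y` with `|y| ≤ (log T) ^ (n + κ)` is taken by
`Z^(n)` at least `T (log T) ^ (1 - κ ^ 2 - ε)` times in `[T, 2 T]`; for `1/2 ≤ κ ≤ 2` the mean number of times that
`Z^(n)` takes the values `σ y`, `y ∈ [Y, 2 Y]`, `Y = (log T) ^ (n + κ)`, in `[T, 2 T]` is at most
`C T (log T) ^ (1 - κ ^ 2)`, and `1 - κ ^ 2` is the exact exponent.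
-/

open Filter Topology Complex MeasureTheory

namespace Pool.Agent.Results.MP_6a632e_nt.LevelCrossings

/-- the phase `exp (i ϑ(t))`, with `ϑ(t) = arg Γ(1/4 + i t / 2) - (t / 2) log π` -/
noncomputable def phase (t : ℝ) : ℂ :=
  Gamma (1 / 4 + I * t / 2) / ‖Gamma (1 / 4 + I * t / 2)‖ * cexp (-(I * (t / 2) * Real.log Real.pi))

/-- Hardy's function `Z(t) = exp (i ϑ(t)) ζ(1/2 + i t)`; the product is real, see `Z_eq` -/
noncomputable def Z (t : ℝ) : ℝ := (phase t * riemannZeta (1 / 2 + I * t)).re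

theorem Z_eq (t : ℝ) : ((Z t : ℝ) : ℂ) = phase t * riemannZeta (1 / 2 + I * t) :=
  Pool.Agent.X117.HZ.Z_eq t

/-- the `t ∈ [T, 2 T]` with `Z^(n)(t) = y` -/
def sols (n : ℕ) (y T : ℝ) : Set ℝ := {t : ℝ | T ≤ t ∧ t ≤ 2 * T ∧ iteratedDeriv n Z t = y}

/-- the number of the `t ∈ [T, 2 T]` with `Z^(n)(t) = y`, possibly `∞` -/
noncomputable def number (n : ℕ) (y T : ℝ) : ENNReal := ((sols n y T).encard : ENNReal)

/-- the mean of the number of the `t ∈ [T, 2 T]` with `Z^(n)(t) = σ y` over the `y ∈ [Y, 2 Y]` -/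
noncomputable def mean (σ : ℝ) (n : ℕ) (Y T : ℝ) : ENNReal :=
  (∫⁻ y in Set.Icc Y (2 * Y), number n (σ * y) T) / ENNReal.ofReal Y

/-- `log (f / T) / log log T → a` from bounds up to `(log T) ^ ε` -/
lemma tendsto_of_bounds {f : ℝ → ℝ} {a : ℝ}
    (hlo : ∀ ε : ℝ, 0 < ε → ∀ᶠ T : ℝ in atTop, T * Real.log T ^ (a - ε) ≤ f T)
    (hup : ∀ ε : ℝ, 0 < ε → ∀ᶠ T : ℝ in atTop, f T ≤ T * Real.log T ^ (a + ε)) :
    Tendsto (fun T : ℝ => Real.log (f T / T) / Real.log (Real.log T)) atTop (𝓝 a) := by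
  rw [Metric.tendsto_nhds]
  intro e he
  filter_upwards [hlo (e / 2) (by positivity), hup (e / 2) (by positivity),
    (Real.tendsto_log_atTop.comp Real.tendsto_log_atTop).eventually_ge_atTop 1,
    Real.tendsto_log_atTop.eventually_ge_atTop 1, eventually_ge_atTop 1] with T h1 h2 h3 h4 h5
  have hT0 : 0 < T := by linarith
  have hL0 : 0 < Real.log T := by linarith
  have h3' : 1 ≤ Real.log (Real.log T) := h3
  have hLL0 : 0 < Real.log (Real.log T) := by linarith
  have p1 : Real.log T ^ (a - e / 2) ≤ f T / T := by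
    rw [le_div_iff₀ hT0]; linarith
  have p2 : f T / T ≤ Real.log T ^ (a + e / 2) := by
    rw [div_le_iff₀ hT0]; linarith
  have p0 : 0 < f T / T := lt_of_lt_of_le (Real.rpow_pos_of_pos hL0 _) p1
  have q1 : (a - e / 2) * Real.log (Real.log T) ≤ Real.log (f T / T) := by
    have := Real.log_le_log (Real.rpow_pos_of_pos hL0 _) p1
    rwa [Real.log_rpow hL0] at this
  have q2 : Real.log (f T / T) ≤ (a + e / 2) * Real.log (Real.log T) := by
    have := Real.log_le_log p0 p2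
    rwa [Real.log_rpow hL0] at this
  rw [Real.dist_eq, abs_lt]
  constructor
  · have : a - e / 2 ≤ Real.log (f T / T) / Real.log (Real.log T) := by
      rw [le_div_iff₀ hLL0]; exact q1
    linarith
  · have : Real.log (f T / T) / Real.log (Real.log T) ≤ a + e / 2 := by
      rw [div_le_iff₀ hLL0]; exact q2
    linarith

/-- a constant factor is at most `(log T) ^ ε` -/
lemma const_le {f : ℝ → ℝ} {a C : ℝ} (h : ∀ᶠ T : ℝ in atTop, f T ≤ C * (T * Real.log T ^ a)) {ε : ℝ}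
    (hε : 0 < ε) : ∀ᶠ T : ℝ in atTop, f T ≤ T * Real.log T ^ (a + ε) := by
  have hLε : Tendsto (fun T : ℝ => Real.log T ^ ε) atTop atTop :=
    (tendsto_rpow_atTop hε).comp Real.tendsto_log_atTop
  filter_upwards [h, hLε.eventually_ge_atTop C, Real.tendsto_log_atTop.eventually_ge_atTop 1,
    eventually_ge_atTop 1] with T h1 h2 hL hT1
  have hL0 : 0 < Real.log T := by linarith
  refine h1.trans ?_
  rw [Real.rpow_add hL0]
  have h3 : 0 ≤ T * Real.log T ^ a := by positivity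
  nlinarith

lemma sols_eq {σ : ℝ} (hσ : σ = 1 ∨ σ = -1) (n : ℕ) (y T : ℝ) :
    sols n (σ * y) T = Pool.Agent.X117.LV.lev σ n y T := by
  ext t
  have h : iteratedDeriv n Z t = σ * y ↔ σ * iteratedDeriv n Z t = y := by
    rcases hσ with rfl | rfl
    · simp
    · constructor <;> intro h <;> linarith
  constructor
  · rintro ⟨h1, h2, h3⟩
    exact ⟨⟨h1, h2⟩, h.mp h3⟩
  · rintro ⟨⟨h1, h2⟩, h3⟩
    exact ⟨h1, h2, h.mpr h3⟩

/-- **how often Hardy's function and its derivatives take a given value** -/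
theorem result : ∀ n : ℕ,
    (∀ κ ε : ℝ, 0 ≤ κ → 0 < ε → ∃ T₀ : ℝ, ∀ T : ℝ, T₀ ≤ T → ∀ y : ℝ, |y| ≤ Real.log T ^ (n + κ) →
      ENNReal.ofReal (T * Real.log T ^ (1 - κ ^ 2 - ε)) ≤ number n y T) ∧
    ∀ κ σ : ℝ, 1 / 2 ≤ κ → κ ≤ 2 → (σ = 1 ∨ σ = -1) →
      (∃ C T₀ : ℝ, ∀ T : ℝ, T₀ ≤ T →
        mean σ n (Real.log T ^ (n + κ)) T ≤ ENNReal.ofReal (C * (T * Real.log T ^ (1 - κ ^ 2)))) ∧
      Tendsto (fun T : ℝ => Real.log ((mean σ n (Real.log T ^ (n + κ)) T).toReal / T) / Real.log (Real.log T))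
        atTop (𝓝 (1 - κ ^ 2)) := by
  intro n
  refine ⟨fun κ ε _ hε => ?_, fun κ σ hκ hκ2 hσ => ?_⟩
  · obtain ⟨T₀, h⟩ := Filter.eventually_atTop.mp (Pool.Agent.X117.LV.lev_ge n κ hε (σ := 1) (Or.inl rfl))
    refine ⟨T₀, fun T hT y hy => ?_⟩
    have h1 := h T hT y hy
    rw [← sols_eq (Or.inl rfl), one_mul] at h1
    exact h1
  · obtain ⟨C, hC1, hC⟩ := Pool.Agent.X117.LV.lev_le n hκ hκ2 hσ
    have hup : ∀ᶠ T : ℝ in atTop,
        mean σ n (Real.log T ^ (n + κ)) T ≤ ENNReal.ofReal (C * (T * Real.log T ^ (1 - κ ^ 2))) := by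
      filter_upwards [hC, Real.tendsto_log_atTop.eventually_ge_atTop 1, eventually_ge_atTop 1] with T h1 hL hT
      have hL0 : 0 < Real.log T := by linarith
      have hY : 0 < Real.log T ^ (n + κ) := Real.rpow_pos_of_pos hL0 _
      simp only [← sols_eq hσ] at h1
      refine ENNReal.div_le_of_le_mul (h1.trans ?_)
      rw [← ENNReal.ofReal_mul (by positivity)]
      refine ENNReal.ofReal_le_ofReal (le_of_eq ?_)
      ring
    have hlo : ∀ ε : ℝ, 0 < ε → ∀ᶠ T : ℝ in atTop,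
        ENNReal.ofReal (T * Real.log T ^ (1 - κ ^ 2 - ε)) ≤ mean σ n (Real.log T ^ (n + κ)) T := by
      intro ε hε
      filter_upwards [Pool.Agent.X117.LV.mean_ge n κ hε hσ, Real.tendsto_log_atTop.eventually_ge_atTop 1,
        eventually_ge_atTop 1] with T h1 hL hT
      have hL0 : 0 < Real.log T := by linarith
      have hY : 0 < Real.log T ^ (n + κ) := Real.rpow_pos_of_pos hL0 _
      simp only [← sols_eq hσ] at h1
      unfold mean
      rw [ENNReal.le_div_iff_mul_le (Or.inl (by simpa using hY)) (Or.inl ENNReal.ofReal_ne_top),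
        ← ENNReal.ofReal_mul (by positivity)]
      refine le_trans (ENNReal.ofReal_le_ofReal (le_of_eq ?_)) h1
      ring
    refine ⟨⟨C, Filter.eventually_atTop.mp hup⟩, tendsto_of_bounds (fun ε hε => ?_) fun ε hε => ?_⟩
    · filter_upwards [hlo ε hε, hup] with T h3 h4
      exact (ENNReal.ofReal_le_iff_le_toReal (ne_top_of_le_ne_top ENNReal.ofReal_ne_top h4)).mp h3
    · refine const_le (C := C) ?_ hε
      filter_upwards [hup, Real.tendsto_log_atTop.eventually_ge_atTop 1, eventually_ge_atTop 1] with T h4 hL hT1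
      exact ENNReal.toReal_le_of_le_ofReal (by positivity) h4

end Pool.Agent.Results.MP_6a632e_nt.LevelCrossings
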