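import Pool.Agent.X110.LV6

/-!
# Modulus and argument of zeta near the critical line

For an integer `r` and complex `z` let `moment δ V T r z = (1/T) ∫ ζ(1/2 + δ + it)^r |ζ(1/2 + δ + it)|^(2z) dt` over the
`t` in `(0, T]` with `1/V < |ζ(1/2 + δ + it)| < V`.

(1) For every integer `r ≠ 0` and every `R` there is `c > 0` such that for every `B`, uniformly in `|z| ≤ R`, in
`C loglog T / log T ≤ δ ≤ 1/16` and in `(log T)^A ≤ V ≤ T^(cδ)`,
`moment δ V T r z = ∑_n d_(z+r)(n) d_z(n) n^(-1-2δ) + O((log T)^(-B))`, with `d_z` the coefficients of `ζ^z`; the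
omitted `t` have measure at most `T (log T)^(-B)`.

(2) If `δ = δ(T) → 0` and `log V / loglog T → ∞`, `log V / (δ log T) → 0`, then
`(2δ)^(z(z+r)) moment δ V T r z → a(z + r, z)` for every complex `z`, also when `z` varies with `T` in a convergent way,
where `a(u, v) = ∏_p (1 - 1/p)^(uv) ∑_m bin(u, m) bin(v, m) p^(-m)`, a convergent product.

Let now `δ = δ(T) → 0` with `δ log T / loglog T → ∞`, and let `f` be a continuous function on the plane. The mean of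
`f(ζ/|ζ|)` at the points `1/2 + δ + it` with `t` in each of the following sets tends to the mean of `f` over the unit
circle:

(3) the `t` in `(0, T]` with `|ζ| ≥ e^x`, where `x = x(T) ≥ 0` and `x / log (1/(2δ))` converges;
(4) the `t` in `(0, T]` with `|ζ| ≤ e^(-x)`, with the same condition on `x`;
(5) the `t` in `(0, T]` with `A ≤ (2δ)^α |ζ| ≤ B`, where `0 < A < B` and `α = α(T)` converges.
-/

set_option autoImplicit false

namespace Pool.Agent.Results.MP_6a632e_nt.ModulusAndArgument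

open MeasureTheory Finset Filter Topology

noncomputable section

/-- The point `1/2 + δ + it`. -/
def pt (δ t : ℝ) : ℂ := ((1 / 2 + δ : ℝ) : ℂ) + (t : ℂ) * Complex.I

/-- The `t` in `(0, T]` at which `|ζ|` lies between `1/V` and `V`. -/
def good (δ V T : ℝ) : Set ℝ :=
  {t | t ∈ Set.Ioc 0 T ∧ V⁻¹ < ‖riemannZeta (pt δ t)‖ ∧ ‖riemannZeta (pt δ t)‖ < V}

/-- `(1/T) ∫ ζ(1/2 + δ + it)^r |ζ(1/2 + δ + it)|^(2z) dt` over `good δ V T`. -/
def moment (δ V T : ℝ) (r : ℤ) (z : ℂ) : ℂ :=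
  (1 / (T : ℂ)) * ∫ t in good δ V T, riemannZeta (pt δ t) ^ r * ((‖riemannZeta (pt δ t)‖ : ℝ) : ℂ) ^ (2 * z)

/-- `z (z + 1) ⋯ (z + m - 1) / m!`. -/
def bin (z : ℂ) (m : ℕ) : ℂ := ∏ i ∈ range m, (z + i) / ((i : ℂ) + 1)

/-- The coefficient `d_z(n)` of `n^(-s)` in `ζ(s)^z`. -/
def dk (z : ℂ) (n : ℕ) : ℂ := if n = 0 then 0 else n.factorization.prod fun _ e => bin z e

/-- `∑_n d_u(n) d_v(n) n^(-1-2δ)`. -/
def diag (δ : ℝ) (u v : ℂ) : ℂ := ∑' n : ℕ, dk u n * dk v n * (((n : ℝ) ^ (-1 - 2 * δ) : ℝ) : ℂ)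

/-- The factor of `a(u, v)` at the prime `p`. -/
def factor (u v : ℂ) (p : ℕ) : ℂ :=
  ((1 - 1 / (p : ℝ) : ℝ) : ℂ) ^ (u * v) * ∑' m : ℕ, bin u m * bin v m * ((1 / (p : ℝ) : ℝ) : ℂ) ^ m

/-- The arithmetic factor `a(u, v)`. -/
def arith (u v : ℂ) : ℂ := ∏' p : Nat.Primes, factor u v p

/-- The mean of `f(ζ/|ζ|)` at the points `1/2 + δ + it`, `t ∈ S`. -/
def mean (δ : ℝ) (f : ℂ → ℝ) (S : Set ℝ) : ℝ :=
  (∫ t in S, f (riemannZeta (pt δ t) / (‖riemannZeta (pt δ t)‖ : ℂ))) / (volume S).toReal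

/-- The mean of `f` over the unit circle. -/
def circleMean (f : ℂ → ℝ) : ℝ := (2 * Real.pi)⁻¹ * ∫ θ in (0:ℝ)..(2 * Real.pi), f (Complex.exp (θ * Complex.I))

/-- Modulus and argument near the critical line. -/
theorem result :
    (∀ r : ℤ, r ≠ 0 → ∀ R : ℝ, 0 ≤ R → ∃ c : ℝ, 0 < c ∧ ∀ B : ℝ, ∃ A C T₀ : ℝ, 0 < C ∧ ∀ T : ℝ, T₀ ≤ T →
      ∀ δ : ℝ, C * Real.log (Real.log T) / Real.log T ≤ δ → δ ≤ 1 / 16 →
      ∀ V : ℝ, Real.log T ^ A ≤ V → V ≤ T ^ (c * δ) →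
      (volume (Set.Ioc 0 T \ good δ V T)).toReal ≤ T * Real.log T ^ (-B) ∧
      ∀ z : ℂ, ‖z‖ ≤ R → ‖moment δ V T r z - diag δ (z + r) z‖ ≤ Real.log T ^ (-B)) ∧
    (∀ r : ℤ, r ≠ 0 → ∀ δ V : ℝ → ℝ, Tendsto δ atTop (𝓝 0) → (∀ᶠ T in atTop, 0 < δ T) → (∀ᶠ T in atTop, 1 ≤ V T) →
      Tendsto (fun T => Real.log (V T) / Real.log (Real.log T)) atTop atTop →
      Tendsto (fun T => Real.log (V T) / (δ T * Real.log T)) atTop (𝓝 0) → ∀ z₀ : ℂ,
      Tendsto (fun q : ℂ × ℝ => ((2 * δ q.2 : ℝ) : ℂ) ^ (q.1 * (q.1 + r)) * moment (δ q.2) (V q.2) q.2 r q.1)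
        (𝓝 z₀ ×ˢ atTop) (𝓝 (arith (z₀ + r) z₀))) ∧
    (∀ u v : ℂ, Multipliable fun p : Nat.Primes => factor u v p) ∧
    ∀ δ : ℝ → ℝ, Tendsto δ atTop (𝓝 0) → (∀ᶠ T in atTop, 0 < δ T) →
      Tendsto (fun T => δ T * Real.log T / Real.log (Real.log T)) atTop atTop → ∀ f : ℂ → ℝ, Continuous f →
      (∀ (x : ℝ → ℝ) (b : ℝ), (∀ᶠ T in atTop, 0 ≤ x T) → Tendsto (fun T => x T / Real.log (1 / (2 * δ T))) atTop (𝓝 b) →
        Tendsto (fun T => mean (δ T) f {t | t ∈ Set.Ioc 0 T ∧ Real.exp (x T) ≤ ‖riemannZeta (pt (δ T) t)‖}) atTop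
          (𝓝 (circleMean f)) ∧
        Tendsto (fun T => mean (δ T) f {t | t ∈ Set.Ioc 0 T ∧ ‖riemannZeta (pt (δ T) t)‖ ≤ Real.exp (-x T)}) atTop
          (𝓝 (circleMean f))) ∧
      ∀ (α : ℝ → ℝ) (α₀ : ℝ), Tendsto α atTop (𝓝 α₀) → ∀ A B : ℝ, 0 < A → A < B →
        Tendsto (fun T => mean (δ T) f {t | t ∈ Set.Ioc 0 T ∧ A ≤ (2 * δ T) ^ α T * ‖riemannZeta (pt (δ T) t)‖ ∧
          (2 * δ T) ^ α T * ‖riemannZeta (pt (δ T) t)‖ ≤ B}) atTop (𝓝 (circleMean f)) := by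
  have hdiag : ∀ δ u v, diag δ u v = Pool.Agent.X110.LV.S2 (u, v) δ := by
    intro δ u v
    unfold diag Pool.Agent.X110.LV.S2
    refine tsum_congr fun n => ?_
    have e : -(2 * (1 / 2 + δ)) = -1 - 2 * δ := by ring
    rw [e]
    rfl
  have hmom : ∀ δ V T r z, δ ≤ 1 / 16 → 1 ≤ V → moment δ V T r z = Pool.Agent.X110.LV.MP V δ T r z := by
    intro δ V T r z hδ hV
    unfold moment Pool.Agent.X110.LV.MP
    congr 1
    have hs : good δ V T = Pool.Agent.X110.ND.gset V δ T := rfl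
    rw [hs]
    refine setIntegral_congr_fun (Pool.Agent.X110.ND.gset_meas V δ T hδ) fun t ht => ?_
    have h1 : 0 < ‖riemannZeta (pt δ t)‖ := lt_trans (inv_pos.mpr (by linarith)) ht.2.1
    show riemannZeta (pt δ t) ^ r * ((‖riemannZeta (pt δ t)‖ : ℝ) : ℂ) ^ (2 * z) =
      riemannZeta (pt δ t) ^ r * Complex.exp (2 * z * (Pool.Agent.X110.LT.Xf δ t : ℝ))
    rw [Complex.cpow_def_of_ne_zero (by exact_mod_cast h1.ne'), ← Complex.ofReal_log h1.le, mul_comm (2 * z)]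
    rfl
  refine ⟨?_, ?_, fun u v => Pool.Agent.X110.LV.G2_mult (u, v), ?_⟩
  · intro r hr0 R hR
    obtain ⟨c1, hc1, H1⟩ := Pool.Agent.X110.LT.cmoment R hR
    obtain ⟨c2, hc2, H2⟩ := Pool.Agent.X110.LV.cphase R hR r
    refine ⟨min c1 c2, lt_min hc1 hc2, fun B => ?_⟩
    obtain ⟨A1, C1, T1, hC1, K1⟩ := H1 (max B 0) (le_max_right _ _)
    obtain ⟨A2, C2, T2, hC2, K2⟩ := H2 (max B 0) (le_max_right _ _)
    refine ⟨max (max A1 A2) 0, max C1 C2, max (max T1 T2) (Real.exp (Real.exp 1)), lt_of_lt_of_le hC1 (le_max_left _ _),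
      fun T hT δ hδ hδ1 V hV1 hV2 => ?_⟩
    have hT1 : T1 ≤ T := ((le_max_left _ _).trans (le_max_left _ _)).trans hT
    have hT2 : T2 ≤ T := ((le_max_right _ _).trans (le_max_left _ _)).trans hT
    have hT3 : Real.exp (Real.exp 1) ≤ T := (le_max_right _ _).trans hT
    have hTpos : 0 < T := (Real.exp_pos _).trans_le hT3
    have hLe : Real.exp 1 ≤ Real.log T := (Real.le_log_iff_exp_le hTpos).mpr hT3
    have hL1' : 1 ≤ Real.log T := (Real.one_le_exp (by norm_num)).trans hLe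
    have hL0 : 0 < Real.log T := by linarith
    have hLL : 0 ≤ Real.log (Real.log T) := Real.log_nonneg hL1'
    have hδa : C1 * Real.log (Real.log T) / Real.log T ≤ δ := by
      refine le_trans ?_ hδ
      gcongr
      exact le_max_left _ _
    have hδb : C2 * Real.log (Real.log T) / Real.log T ≤ δ := by
      refine le_trans ?_ hδ
      gcongr
      exact le_max_right _ _
    obtain ⟨hL1, hδ0, h2δ, K1'⟩ := K1 T hT1 δ hδa hδ1
    obtain ⟨-, -, -, K2'⟩ := K2 T hT2 δ hδb hδ1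
    have hT1' : 1 ≤ T := by
      have := Real.add_one_le_exp (Real.exp 1)
      have h2 := Real.exp_pos 1
      linarith
    have hVa : Real.log T ^ A1 ≤ V := (Real.rpow_le_rpow_of_exponent_le hL1' ((le_max_left _ _).trans (le_max_left _ _))).trans hV1
    have hVb : Real.log T ^ A2 ≤ V := (Real.rpow_le_rpow_of_exponent_le hL1' ((le_max_right _ _).trans (le_max_left _ _))).trans hV1
    have hV : 1 ≤ V := by
      have h0 := Real.rpow_le_rpow_of_exponent_le hL1' (le_max_right (max A1 A2) 0)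
      rw [Real.rpow_zero] at h0
      exact h0.trans hV1
    have hVc : V ≤ T ^ (c1 * δ) := hV2.trans (Real.rpow_le_rpow_of_exponent_le hT1'
      (mul_le_mul_of_nonneg_right (min_le_left _ _) hδ0.le))
    have hVd : V ≤ T ^ (c2 * δ) := hV2.trans (Real.rpow_le_rpow_of_exponent_le hT1'
      (mul_le_mul_of_nonneg_right (min_le_right _ _) hδ0.le))
    obtain ⟨g1, -⟩ := K1' V hVa hVc
    have hB : Real.log T ^ (-(max B 0)) ≤ Real.log T ^ (-B) :=
      Real.rpow_le_rpow_of_exponent_le hL1' (neg_le_neg (le_max_left _ _))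
    refine ⟨g1.trans (mul_le_mul_of_nonneg_left hB hTpos.le), fun z hz => ?_⟩
    rw [hmom δ V T r z hδ1 hV, hdiag]
    exact (K2' V hVb hVd z hz).trans hB
  · intro r hr0 δ V h1 h2 h3 h4 h5 z₀
    have hA : Pool.Agent.X110.LT.Adm δ V := ⟨h1, h3, h2, h4, h5⟩
    refine (Pool.Agent.X110.LV.modG2 hA r z₀).congr' ?_
    have h6 := h1.eventually (gt_mem_nhds (by norm_num : (0:ℝ) < 1 / 16))
    filter_upwards [tendsto_snd.eventually h6, tendsto_snd.eventually h3] with q g1 g2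
    rw [hmom _ _ _ _ _ g1.le g2]
  · intro δ h1 h2 h3 f hf
    refine ⟨fun x b hx hb => ?_, fun α α₀ hα A B hA hAB => ?_⟩
    · have hb2 : Tendsto (fun T => x T / Pool.Agent.X110.LV.elz δ T) atTop (𝓝 (2 * b)) := by
        refine (hb.const_mul 2).congr fun T => ?_
        unfold Pool.Agent.X110.LV.elz
        rw [div_div_eq_mul_div]
        ring
      exact ⟨Pool.Agent.X110.LV.argLarge h1 h2 h3 hx hb2 hf, Pool.Agent.X110.LV.argSmall h1 h2 h3 hx hb2 hf⟩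
    · exact Pool.Agent.X110.LV.argWindow h1 h2 h3 hα hA hAB hf

end

end Pool.Agent.Results.MP_6a632e_nt.ModulusAndArgument
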