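import Pool.Agent.X117.Peak
import Pool.Agent.X117.Peak3

/-!
# The peaks of Hardy's function between consecutive zeros

Unconditionally: let the arches of sign `σ` be the pairs of consecutive zeros of Hardy's function `Z` in
`(T, 2 T]` between which `σ Z > 0`, and the peak of an arch the maximum of `|Z|` on it. For each sign and
`0 ≤ κ ≤ 2` the number of the arches with peak at least `(log T) ^ κ` is `T (log T) ^ (1 - κ ^ 2 + o(1))`,
the same holds for the number of adjacent pairs of such arches, in each order of the signs, and the sum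
of the `2 k`-th powers of the peaks is `T (log T) ^ (k ^ 2 + 1 + o(1))` for `0 < k < 2`. The lower bounds
hold for all `κ` and `k`.
-/

open Filter Topology Complex

namespace Pool.Agent.Results.MP_6a632e_nt.PeaksOfHardysFunction

/-- the phase `exp (i ϑ(t))`, with `ϑ(t) = arg Γ(1/4 + i t / 2) - (t / 2) log π` -/
noncomputable def phase (t : ℝ) : ℂ :=
  Gamma (1 / 4 + I * t / 2) / ‖Gamma (1 / 4 + I * t / 2)‖ * cexp (-(I * (t / 2) * Real.log Real.pi))

/-- Hardy's function `Z(t) = exp (i ϑ(t)) ζ(1/2 + i t)`; the product is real, see `Z_eq` -/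
noncomputable def Z (t : ℝ) : ℝ := (phase t * riemannZeta (1 / 2 + I * t)).re

theorem Z_eq (t : ℝ) : ((Z t : ℝ) : ℂ) = phase t * riemannZeta (1 / 2 + I * t) :=
  Pool.Agent.X117.HZ.Z_eq t

/-- the arches of sign `σ`: the pairs of consecutive zeros of `Z` in `(T, 2 T]` with `σ Z > 0` between
them -/
def arches (σ T : ℝ) : Set (ℝ × ℝ) :=
  {p | T < p.1 ∧ p.1 < p.2 ∧ p.2 ≤ 2 * T ∧ Z p.1 = 0 ∧ Z p.2 = 0 ∧
    ∀ t, p.1 < t → t < p.2 → 0 < σ * Z t}

/-- the peak: the maximum of `|Z|` on `[a, b]` -/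
noncomputable def peak (p : ℝ × ℝ) : ℝ := sSup ((fun t => |Z t|) '' Set.Icc p.1 p.2)

/-- the arches of sign `σ` with peak at least `(log T) ^ κ` -/
def high (σ κ T : ℝ) : Set (ℝ × ℝ) := {p | p ∈ arches σ T ∧ Real.log T ^ κ ≤ peak p}

/-- the zeros at which an arch of sign `-σ` is followed by an arch of sign `σ`, both with peak at least
`(log T) ^ κ` -/
def twins (σ κ T : ℝ) : Set ℝ := {g | ∃ a b, (a, g) ∈ high (-σ) κ T ∧ (g, b) ∈ high σ κ T}

/-- the sum of the `2 k`-th powers of the peaks of the arches of sign `σ` -/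
noncomputable def moment (σ k T : ℝ) : ℝ := ∑ᶠ p ∈ arches σ T, peak p ^ (2 * k)

lemma Z_cont : Continuous Z := Pool.Agent.X117.HZ.Z_cont

lemma Z_zero_iff (t : ℝ) : Z t = 0 ↔ riemannZeta (1 / 2 + I * t) = 0 :=
  Pool.Agent.X117.HZ.Z_zero_iff t

lemma abs_Z (t : ℝ) : |Z t| = ‖riemannZeta (1 / 2 + I * t)‖ := Pool.Agent.X117.HZ.abs_Z t

lemma zeros_finite {T : ℝ} (hT : 0 < T) : {t : ℝ | T < t ∧ t ≤ 2 * T ∧ Z t = 0}.Finite := by
  refine (Pool.Agent.X117.HZ.ords_finite (Pool.Agent.X117.HZ.zW_finite T (2 * T) hT)).subset ?_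
  rintro g ⟨h1, h2, h3⟩
  exact ⟨h1.le, h2, 1 / 2 + I * g, (Z_zero_iff g).mp h3, by simp, by simp; norm_num, by simp⟩

lemma arches_finite {T : ℝ} (hT : 0 < T) (σ : ℝ) : (arches σ T).Finite := by
  refine ((zeros_finite hT).prod (zeros_finite hT)).subset ?_
  rintro ⟨a, b⟩ ⟨h1, h2, h3, h4, h5, -⟩
  exact ⟨⟨h1, by simp only at h2 h3 ⊢; linarith, h4⟩, ⟨by simp only at h1 h2 ⊢; linarith, h3, h5⟩⟩

lemma high_finite {T : ℝ} (hT : 0 < T) (σ κ : ℝ) : (high σ κ T).Finite :=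
  (arches_finite hT σ).subset fun _ h => h.1

lemma abs_cont : Continuous fun t => |Z t| := continuous_abs.comp Z_cont

lemma le_peak {a b t : ℝ} (h1 : a ≤ t) (h2 : t ≤ b) : |Z t| ≤ peak (a, b) := by
  refine le_csSup ?_ ⟨t, ⟨h1, h2⟩, rfl⟩
  exact (isCompact_Icc.image abs_cont).bddAbove

lemma peak_nonneg (p : ℝ × ℝ) : 0 ≤ peak p := by
  refine Real.sSup_nonneg ?_
  rintro x ⟨t, -, rfl⟩
  exact abs_nonneg _

/-- the peak is attained inside the arch -/
lemma exists_peak {σ T : ℝ} (p : ℝ × ℝ) (hp : p ∈ arches σ T) :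
    ∃ t, p.1 < t ∧ t < p.2 ∧ |Z t| = peak p := by
  obtain ⟨h1, h2, h3, h4, h5, h6⟩ := hp
  obtain ⟨t, ht, hmax⟩ := isCompact_Icc.exists_isMaxOn (Set.nonempty_Icc.mpr h2.le)
    (abs_cont.continuousOn (s := Set.Icc p.1 p.2))
  have hpt : |Z t| = peak p := by
    refine le_antisymm (le_peak ht.1 ht.2) ?_
    refine csSup_le ⟨|Z t|, t, ht, rfl⟩ ?_
    rintro x ⟨u, hu, rfl⟩
    exact hmax hu
  have hmid : 0 < |Z ((p.1 + p.2) / 2)| := by
    have h7 := h6 ((p.1 + p.2) / 2) (by linarith) (by linarith)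
    rw [abs_pos]
    intro h
    rw [h, mul_zero] at h7
    exact lt_irrefl _ h7
  have hmid2 : |Z ((p.1 + p.2) / 2)| ≤ |Z t| := hmax (by constructor <;> linarith)
  have hne : Z t ≠ 0 := by
    intro h
    rw [h, abs_zero] at hmid2
    linarith
  refine ⟨t, lt_of_le_of_ne ht.1 ?_, lt_of_le_of_ne ht.2 ?_, hpt⟩
  · intro h
    rw [← h] at hne
    exact hne h4
  · intro h
    rw [h] at hne
    exact hne h5

/-- two arches of the same sign are equal or do not overlap -/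
lemma arches_disjoint {σ T : ℝ} {p q : ℝ × ℝ} (hp : p ∈ arches σ T) (hq : q ∈ arches σ T) :
    p = q ∨ p.2 ≤ q.1 ∨ q.2 ≤ p.1 := by
  obtain ⟨-, p2, -, p4, p5, p6⟩ := hp
  obtain ⟨-, q2, -, q4, q5, q6⟩ := hq
  have hz : ∀ x : ℝ, Z x = 0 → ¬ 0 < σ * Z x := fun x hx h => by
    rw [hx, mul_zero] at h
    exact lt_irrefl _ h
  rcases lt_trichotomy p.1 q.1 with h | h | h
  · right; left
    by_contra hc
    exact hz _ q4 (p6 q.1 h (not_le.mp hc))
  · left
    rcases lt_trichotomy p.2 q.2 with h' | h' | h'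
    · exact absurd (q6 p.2 (by linarith) h') (hz _ p5)
    · exact Prod.ext h h'
    · exact absurd (p6 q.2 (by linarith) h') (hz _ q5)
  · right; right
    by_contra hc
    exact hz _ p4 (q6 p.1 h (not_le.mp hc))

open Classical in
/-- the moments from above -/
lemma moment_le (σ : ℝ) {k : ℝ} (h0 : 0 < k) (h2 : k < 2) {ε : ℝ} (hε : 0 < ε) :
    ∀ᶠ T : ℝ in atTop, moment σ k T ≤ T * Real.log T ^ (k ^ 2 + 1 + ε) := by
  filter_upwards [Pool.Agent.X117.Peak.points_le h0 h2 hε, eventually_ge_atTop (10 : ℝ)] with T hT hT10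
  have hT0 : 0 < T := by linarith
  have hfin := arches_finite hT0 σ
  have hex : ∀ p : ℝ × ℝ, ∃ t, p ∈ arches σ T → p.1 < t ∧ t < p.2 ∧ |Z t| = peak p := by
    intro p
    by_cases hp : p ∈ arches σ T
    · obtain ⟨t, ht⟩ := exists_peak p hp
      exact ⟨t, fun _ => ht⟩
    · exact ⟨0, fun h => absurd h hp⟩
  choose l hl using hex
  set F := hfin.toFinset with hF
  have hFm : ∀ p ∈ F, p ∈ arches σ T := fun p hp => by
    rwa [hF, Set.Finite.mem_toFinset] at hp
  let f : ℝ × ℝ → ℂ := fun p => 1 / 2 + I * (l p : ℂ)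
  have hfim : ∀ p, (f p).im = l p := fun p => by simp [f]
  have hfre : ∀ p, (f p).re = 1 / 2 := fun p => by simp [f]
  have hinj : Set.InjOn f F := by
    intro p hp q hq hpq
    have h1 : l p = l q := by rw [← hfim p, ← hfim q, hpq]
    obtain ⟨a1, a2, -⟩ := hl p (hFm p hp)
    obtain ⟨b1, b2, -⟩ := hl q (hFm q hq)
    rcases arches_disjoint (hFm p hp) (hFm q hq) with h | h | h
    · exact h
    · linarith
    · linarith
  have hmain := hT (F.image f) (by
    intro s hs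
    obtain ⟨p, hp, rfl⟩ := Finset.mem_image.mp hs
    obtain ⟨a1, a2, -⟩ := hl p (hFm p hp)
    obtain ⟨c1, c2, c3, -⟩ := hFm p hp
    exact ⟨hfre p, by rw [hfim]; linarith, by rw [hfim]; linarith⟩) (by
    intro a b ha hab
    have e1 : ((F.image f).filter fun s => a ≤ s.im ∧ s.im ≤ b) =
        (F.filter fun p => a ≤ l p ∧ l p ≤ b).image f := by
      rw [Finset.filter_image]
      congr 1
      ext p
      simp only [Finset.mem_filter, hfim]
    rw [e1, Finset.card_image_of_injOn (hinj.mono fun p hp => (Finset.mem_filter.mp hp).1)]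
    set Q := F.filter fun p => a ≤ l p ∧ l p ≤ b with hQ
    rcases Q.eq_empty_or_nonempty with hQe | hQn
    · rw [hQe]
      simp only [Finset.card_empty, Nat.cast_zero]
      positivity
    obtain ⟨m, hm, hmax⟩ := Finset.exists_max_image Q l hQn
    have hQm : ∀ p ∈ Q, p ∈ F ∧ a ≤ l p ∧ l p ≤ b := fun p hp => Finset.mem_filter.mp hp
    have h3 : (Q.erase m).card ≤ (H370.Zf riemannZeta a b).card := by
      refine Finset.card_le_card_of_injOn (fun p => 1 / 2 + I * (p.2 : ℂ)) ?_ ?_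
      · intro p hp
        rw [Finset.mem_coe, Finset.mem_erase] at hp
        obtain ⟨hpm, hp⟩ := hp
        rw [Finset.mem_coe, H370.mem_Zf H370.good_zeta ha]
        obtain ⟨hpF, d1, d2⟩ := hQm p hp
        obtain ⟨hmF, e1, e2⟩ := hQm m hm
        obtain ⟨a1, a2, -⟩ := hl p (hFm p hpF)
        obtain ⟨b1, b2, -⟩ := hl m (hFm m hmF)
        have h4 := hmax p hp
        have h5 : p.2 ≤ m.1 := by
          rcases arches_disjoint (hFm p hpF) (hFm m hmF) with h | h | h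
          · exact absurd h hpm
          · exact h
          · linarith
        obtain ⟨c1, c2, c3, c4, c5, -⟩ := hFm p hpF
        refine ⟨by simp, by simp; norm_num, ?_, ?_, (Z_zero_iff p.2).mp c5⟩
        · simp
          linarith
        · simp
          linarith
      · intro p hp q hq hpq
        rw [Finset.mem_coe, Finset.mem_erase] at hp hq
        have h4 : p.2 = q.2 := by
          have := congrArg Complex.im hpq
          simpa using this
        have hpF := (hQm p hp.2).1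
        have hqF := (hQm q hq.2).1
        obtain ⟨c1, c2, -⟩ := hFm p hpF
        obtain ⟨d1, d2, -⟩ := hFm q hqF
        rcases arches_disjoint (hFm p hpF) (hFm q hqF) with h | h | h
        · exact h
        · linarith
        · linarith
    have h4 : (H370.Zf riemannZeta a b).card ≤ H370.NN riemannZeta a b := by
      rw [H370.NN_eq H370.good_zeta ha, Finset.card_eq_sum_ones]
      refine Finset.sum_le_sum fun s hs => ?_
      rw [H370.mem_Zf H370.good_zeta ha] at hs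
      exact H370.Loc.mult_pos' H370.good_zeta (by linarith [hs.2.2.1]) hs.2.2.2.2
    have h5 := Finset.card_erase_add_one hm
    have h6 : Q.card ≤ 1 + H370.NN riemannZeta a b := by omega
    exact_mod_cast h6)
  rw [Finset.sum_image hinj] at hmain
  rw [moment, finsum_mem_eq_finite_toFinset_sum _ hfin, ← hF]
  refine le_trans (le_of_eq ?_) hmain
  refine Finset.sum_congr rfl fun p hp => ?_
  rw [← (hl p (hFm p hp)).2.2, abs_Z]

lemma exists_prev (F : Finset ℝ) {g : ℝ} (h : ∃ a ∈ F, a < g) :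
    ∃ a ∈ F, a < g ∧ ∀ t ∈ F, t < g → t ≤ a := by
  obtain ⟨a, ha, hag⟩ := h
  obtain ⟨m, hm, hmax⟩ := Finset.exists_max_image (F.filter (· < g)) id
    ⟨a, Finset.mem_filter.mpr ⟨ha, hag⟩⟩
  rw [Finset.mem_filter] at hm
  exact ⟨m, hm.1, hm.2, fun t ht htg => hmax t (Finset.mem_filter.mpr ⟨ht, htg⟩)⟩

lemma exists_next (F : Finset ℝ) {g : ℝ} (h : ∃ a ∈ F, g < a) :
    ∃ a ∈ F, g < a ∧ ∀ t ∈ F, g < t → a ≤ t := by
  obtain ⟨a, ha, hag⟩ := h
  obtain ⟨m, hm, hmax⟩ := Finset.exists_min_image (F.filter (g < ·)) id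
    ⟨a, Finset.mem_filter.mpr ⟨ha, hag⟩⟩
  rw [Finset.mem_filter] at hm
  exact ⟨m, hm.1, hm.2, fun t ht htg => hmax t (Finset.mem_filter.mpr ⟨ht, htg⟩)⟩

/-- a function without zeros keeps its sign -/
lemma const_sign {f : ℝ → ℝ} (hf : Continuous f) {a b u : ℝ} (hu : a < u ∧ u < b) (hfu : 0 < f u)
    (h : ∀ t, a < t → t < b → f t ≠ 0) : ∀ t, a < t → t < b → 0 < f t := by
  intro t h1 h2
  by_contra hc
  have h3 : (0 : ℝ) ∈ Set.uIcc (f u) (f t) := by
    rw [Set.uIcc_of_ge (by linarith [not_lt.mp hc])]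
    exact ⟨not_lt.mp hc, hfu.le⟩
  obtain ⟨x, hx, hx0⟩ := intermediate_value_uIcc (hf.continuousOn (s := Set.uIcc u t)) h3
  have h4 : min u t ≤ x := hx.1
  have h5 : x ≤ max u t := hx.2
  exact h x (lt_of_lt_of_le (lt_min hu.1 h1) h4) (lt_of_le_of_lt h5 (max_lt hu.2 h2)) hx0

/-- the two arches at a zero with large values on both sides -/
lemma twin_of_two {σ T κ w g a' b' : ℝ} (hT : 0 < T) (hg1 : T < g) (hg2 : g ≤ 2 * T)
    (h : Pool.Agent.X117.Peak.Two σ w (Real.log T ^ κ) g)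
    (ha : T < a' ∧ a' < g ∧ Z a' = 0) (hb : g < b' ∧ b' ≤ 2 * T ∧ Z b' = 0) : g ∈ twins σ κ T := by
  classical
  obtain ⟨h1, h2, h3, h4, h5, h6, h7⟩ := h
  have h1 : Z g = 0 := h1
  have h2 : 0 < σ * deriv Z g := h2
  have h5 : ∀ t, |t - g| ≤ w → Z t = 0 → t = g := h5
  have hfin := zeros_finite hT
  set F := hfin.toFinset with hF
  have hFm : ∀ t, t ∈ F ↔ T < t ∧ t ≤ 2 * T ∧ Z t = 0 := fun t => by
    rw [hF, Set.Finite.mem_toFinset]
    rfl
  obtain ⟨a, haF, hag, hamax⟩ := exists_prev F (g := g)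
    ⟨a', (hFm a').mpr ⟨ha.1, by linarith [ha.2.1], ha.2.2⟩, ha.2.1⟩
  obtain ⟨b, hbF, hgb, hbmin⟩ := exists_next F (g := g)
    ⟨b', (hFm b').mpr ⟨by linarith [hb.1], hb.2.1, hb.2.2⟩, hb.1⟩
  obtain ⟨a1, a2, a3⟩ := (hFm a).mp haF
  obtain ⟨b1, b2, b3⟩ := (hFm b).mp hbF
  have hσ0 : σ ≠ 0 := by
    rintro rfl
    rw [zero_mul] at h2
    exact lt_irrefl _ h2
  have hcont : Continuous fun t => σ * Z t := continuous_const.mul Z_cont
  have hcont' : Continuous fun t => -σ * Z t := continuous_const.mul Z_cont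
  have hd : deriv (fun t => σ * Z t) g = σ * deriv Z g := deriv_const_mul_field σ
  have hnoa : ∀ t, a < t → t < g → Z t ≠ 0 := by
    intro t t1 t2 t3
    have := hamax t ((hFm t).mpr ⟨by linarith, by linarith, t3⟩) t2
    linarith
  have hnob : ∀ t, g < t → t < b → Z t ≠ 0 := by
    intro t t1 t2 t3
    have := hbmin t ((hFm t).mpr ⟨by linarith, by linarith, t3⟩) t1
    linarith
  -- the signs
  have hr := Pool.Agent.X117.HZ.pos_right (f := fun t => σ * Z t) (u := g) (by simp [h1])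
    (by rw [hd]; exact h2)
  have hl := Pool.Agent.X117.HZ.neg_left (f := fun t => σ * Z t) (u := g) (by simp [h1])
    (by rw [hd]; exact h2)
  obtain ⟨u, hu1, hu2⟩ := (hr.and (Ioo_mem_nhdsGT hgb)).exists
  obtain ⟨v, hv1, hv2⟩ := (hl.and (Ioo_mem_nhdsLT hag)).exists
  have hsb := const_sign hcont hu2 hu1 fun t t1 t2 => mul_ne_zero hσ0 (hnob t t1 t2)
  have hv1' : 0 < -σ * Z v := by
    have : -σ * Z v = -(σ * Z v) := by ring
    rw [this]
    exact neg_pos.mpr hv1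
  have hsa := const_sign hcont' hv2 hv1' fun t t1 t2 => mul_ne_zero (neg_ne_zero.mpr hσ0) (hnoa t t1 t2)
  have hwa : a < g - w := by
    by_contra hc
    have := h5 a (by rw [abs_le]; constructor <;> linarith [not_lt.mp hc]) a3
    linarith
  have hwb : g + w < b := by
    by_contra hc
    have := h5 b (by rw [abs_le]; constructor <;> linarith [not_lt.mp hc]) b3
    linarith
  refine ⟨a, b, ⟨⟨a1, hag, hg2, a3, h1, hsa⟩, ?_⟩, ⟨⟨hg1, hgb, b2, h1, b3, hsb⟩, ?_⟩⟩
  · exact h6.trans (le_peak hwa.le (by linarith))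
  · exact h7.trans (le_peak (by linarith) hwb.le)

/-- the twins from below -/
lemma twins_ge {σ : ℝ} (hσ : σ = 1 ∨ σ = -1) (κ : ℝ) {ε : ℝ} (hε : 0 < ε) :
    ∀ᶠ T : ℝ in atTop, T * Real.log T ^ (1 - κ ^ 2 - ε) ≤ ((twins σ κ T).ncard : ℝ) := by
  classical
  have hk := abs_nonneg κ
  set η : ℝ := min 1 (ε / (2 * (6 * |κ| + 11))) with hη
  have hη0 : 0 < η := by positivity
  have hη1 : η ≤ 1 := min_le_left _ _
  have hη2 : η * (6 * |κ| + 11) ≤ ε / 2 := by
    have h1 : η ≤ ε / (2 * (6 * |κ| + 11)) := min_le_right _ _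
    calc η * (6 * |κ| + 11) ≤ ε / (2 * (6 * |κ| + 11)) * (6 * |κ| + 11) :=
          mul_le_mul_of_nonneg_right h1 (by positivity)
      _ = ε / 2 := by field_simp
  have hLε : Tendsto (fun T : ℝ => Real.log T ^ (ε / 2)) atTop atTop :=
    (tendsto_rpow_atTop (by positivity)).comp Real.tendsto_log_atTop
  have hsmall : ∀ᶠ T : ℝ in atTop, 4 * Real.log T ^ (κ ^ 2 + ε) ≤ T := by
    have h1 := (isLittleO_log_rpow_rpow_atTop (κ ^ 2 + ε) (one_pos)).bound
      (show (0 : ℝ) < 1 / 4 by norm_num)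
    filter_upwards [h1, eventually_ge_atTop (1 : ℝ),
      Real.tendsto_log_atTop.eventually_ge_atTop 1] with T h2 h3 h4
    rw [Real.rpow_one, Real.norm_of_nonneg (by positivity), Real.norm_of_nonneg (by linarith)] at h2
    linarith
  filter_upwards [Pool.Agent.X117.Peak.two_count (κ + 3 * η) hη0 hσ, eventually_ge_atTop (10 : ℝ),
    Real.tendsto_log_atTop.eventually_ge_atTop 1, hLε.eventually_ge_atTop 2, hsmall]
    with T hT hT10 hL1 hL2 hsm
  obtain ⟨S, hS, hSm⟩ := hT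
  have hT0 : 0 < T := by linarith
  have hL0 : 0 < Real.log T := by linarith
  set L := Real.log T with hL
  have e0 : κ + 3 * η - 3 * η = κ := by ring
  rw [e0] at hSm
  have htf : (twins σ κ T).Finite := by
    refine (zeros_finite hT0).subset ?_
    rintro g ⟨a, b, h1, h2⟩
    exact ⟨h2.1.1, h1.1.2.2.1, h2.1.2.2.2.1⟩
  have hsub : (S.filter fun g => (∃ a ∈ S, a < g) ∧ (∃ b ∈ S, g < b)) ⊆ htf.toFinset := by
    intro g hg
    rw [Finset.mem_filter] at hg
    obtain ⟨hgS, ⟨a, haS, hag⟩, ⟨b, hbS, hgb⟩⟩ := hg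
    rw [Set.Finite.mem_toFinset]
    obtain ⟨h1, h2, w, hw⟩ := hSm g hgS
    obtain ⟨a1, a2, w', ha⟩ := hSm a haS
    obtain ⟨b1, b2, w'', hb⟩ := hSm b hbS
    exact twin_of_two hT0 h1 h2 hw ⟨a1, hag, ha.1⟩ ⟨hgb, b2, hb.1⟩
  have h1 := Pool.Agent.X117.Peak.inner_card S
  have h2 := Finset.card_le_card hsub
  rw [← Set.ncard_eq_toFinset_card _ htf] at h2
  have h3 : (S.card : ℝ) ≤ ((twins σ κ T).ncard : ℝ) + 2 := by exact_mod_cast (by omega)
  -- the arithmetic
  have hexp : 1 - κ ^ 2 - ε / 2 ≤ 1 - (κ + 3 * η) ^ 2 - 2 * η := by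
    have h4 : κ ≤ |κ| := le_abs_self κ
    have h5 : η * κ ≤ η * |κ| := mul_le_mul_of_nonneg_left h4 hη0.le
    nlinarith
  have h4 : T * L ^ (1 - κ ^ 2 - ε / 2) ≤ (S.card : ℝ) := by
    refine le_trans ?_ hS
    exact mul_le_mul_of_nonneg_left (Real.rpow_le_rpow_of_exponent_le hL1 hexp) hT0.le
  have e1 : L ^ (1 - κ ^ 2 - ε / 2) = L ^ (1 - κ ^ 2 - ε) * L ^ (ε / 2) := by
    rw [← Real.rpow_add hL0]
    congr 1
    ring
  have h5 : T * L ^ (1 - κ ^ 2 - ε) * 2 ≤ T * L ^ (1 - κ ^ 2 - ε / 2) := by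
    rw [e1, ← mul_assoc]
    exact mul_le_mul_of_nonneg_left hL2 (by positivity)
  have h6 : 2 ≤ T * L ^ (1 - κ ^ 2 - ε) := by
    have e2 : L ^ (κ ^ 2 + ε) * L ^ (1 - κ ^ 2 - ε) = L := by
      rw [← Real.rpow_add hL0]
      have : κ ^ 2 + ε + (1 - κ ^ 2 - ε) = 1 := by ring
      rw [this, Real.rpow_one]
    have h7 : 4 * (L ^ (κ ^ 2 + ε) * L ^ (1 - κ ^ 2 - ε)) ≤ T * L ^ (1 - κ ^ 2 - ε) := by
      rw [← mul_assoc]
      exact mul_le_mul_of_nonneg_right hsm (by positivity)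
    rw [e2] at h7
    linarith
  linarith

lemma twins_le_high {σ κ T : ℝ} (hT : 0 < T) : (twins σ κ T).ncard ≤ (high σ κ T).ncard := by
  have h1 : twins σ κ T ⊆ Prod.fst '' high σ κ T := by
    rintro g ⟨a, b, -, h2⟩
    exact ⟨(g, b), h2, rfl⟩
  exact (Set.ncard_le_ncard h1 ((high_finite hT σ κ).image _)).trans
    (Set.ncard_image_le (high_finite hT σ κ))

/-- the number of high arches and the moments -/
lemma high_le_moment {σ κ k T : ℝ} (hk : 0 < k) (hT : 0 < T) (hL : 0 < Real.log T) :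
    ((high σ κ T).ncard : ℝ) * Real.log T ^ (2 * k * κ) ≤ moment σ k T := by
  have hf1 := high_finite hT σ κ
  have hf2 := arches_finite hT σ
  rw [moment, finsum_mem_eq_finite_toFinset_sum _ hf2, Set.ncard_eq_toFinset_card _ hf1,
    ← nsmul_eq_mul]
  refine (Finset.card_nsmul_le_sum _ (fun p => peak p ^ (2 * k)) _ fun p hp => ?_).trans
    (Finset.sum_le_sum_of_subset_of_nonneg ?_ fun p _ _ => Real.rpow_nonneg (peak_nonneg p) _)
  · rw [Set.Finite.mem_toFinset] at hp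
    have h1 := Real.rpow_le_rpow (by positivity) hp.2 (show 0 ≤ 2 * k by linarith)
    rw [← Real.rpow_mul hL.le] at h1
    refine le_trans (le_of_eq ?_) h1
    congr 1
    ring
  · intro p hp
    rw [Set.Finite.mem_toFinset] at hp ⊢
    exact hp.1

/-- the high arches from above -/
lemma high_le (σ : ℝ) {κ : ℝ} (h0 : 0 ≤ κ) (h2 : κ ≤ 2) {ε : ℝ} (hε : 0 < ε) :
    ∀ᶠ T : ℝ in atTop, ((high σ κ T).ncard : ℝ) ≤ T * Real.log T ^ (1 - κ ^ 2 + ε) := by
  obtain ⟨k, hk0, hk2, hk⟩ : ∃ k : ℝ, 0 < k ∧ k < 2 ∧ (k - κ) ^ 2 ≤ ε / 2 := by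
    have hs : 0 < min (1 / 2) (ε / 2) := by positivity
    set s := min (1 / 2) (ε / 2) with hsd
    have hs1 : s ≤ 1 / 2 := min_le_left _ _
    have hs2 : s ≤ ε / 2 := min_le_right _ _
    rcases le_or_gt κ 1 with h | h
    · refine ⟨κ + s, by linarith, by linarith, ?_⟩
      rw [add_sub_cancel_left]
      nlinarith
    · refine ⟨κ - s, by linarith, by linarith, ?_⟩
      rw [sub_sub_cancel_left, neg_sq]
      nlinarith
  filter_upwards [moment_le σ hk0 hk2 (half_pos hε), eventually_ge_atTop (10 : ℝ),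
    Real.tendsto_log_atTop.eventually_ge_atTop 1] with T hT hT10 hL1
  have hT0 : 0 < T := by linarith
  have hL0 : 0 < Real.log T := by linarith
  have h1 := (high_le_moment (σ := σ) (κ := κ) hk0 hT0 hL0).trans hT
  have h3 : 0 < Real.log T ^ (2 * k * κ) := Real.rpow_pos_of_pos hL0 _
  refine le_of_mul_le_mul_right (h1.trans ?_) h3
  rw [mul_assoc, ← Real.rpow_add hL0]
  refine mul_le_mul_of_nonneg_left (Real.rpow_le_rpow_of_exponent_le hL1 ?_) hT0.le
  nlinarith

/-- the moments from below -/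
lemma moment_ge {σ : ℝ} (hσ : σ = 1 ∨ σ = -1) {k : ℝ} (hk : 0 < k) {ε : ℝ} (hε : 0 < ε) :
    ∀ᶠ T : ℝ in atTop, T * Real.log T ^ (k ^ 2 + 1 - ε) ≤ moment σ k T := by
  filter_upwards [twins_ge hσ k hε, eventually_ge_atTop (10 : ℝ),
    Real.tendsto_log_atTop.eventually_ge_atTop 1] with T hT hT10 hL1
  have hT0 : 0 < T := by linarith
  have hL0 : 0 < Real.log T := by linarith
  have h1 := high_le_moment (σ := σ) (κ := k) hk hT0 hL0
  have h2 : ((twins σ k T).ncard : ℝ) ≤ ((high σ k T).ncard : ℝ) := by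
    exact_mod_cast twins_le_high hT0
  have h3 : 0 < Real.log T ^ (2 * k * k) := Real.rpow_pos_of_pos hL0 _
  refine le_trans ?_ ((mul_le_mul_of_nonneg_right (hT.trans h2) h3.le).trans h1)
  rw [mul_assoc, ← Real.rpow_add hL0]
  refine le_of_eq ?_
  congr 2
  ring

/-- `log (f / T) / log log T → a` from bounds up to `(log T) ^ ε` -/
lemma tendsto_of_bounds {f : ℝ → ℝ} {a : ℝ}
    (hlo : ∀ ε : ℝ, 0 < ε → ∀ᶠ T : ℝ in atTop, T * Real.log T ^ (a - ε) ≤ f T)
    (hup : ∀ ε : ℝ, 0 < ε → ∀ᶠ T : ℝ in atTop, f T ≤ T * Real.log T ^ (a + ε)) :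
    Tendsto (fun T : ℝ => Real.log (f T / T) / Real.log (Real.log T)) atTop (𝓝 a) := by
  rw [Metric.tendsto_nhds]
  intro e he
  filter_upwards [hlo (e / 2) (by positivity), hup (e / 2) (by positivity),
    (Real.tendsto_log_atTop.comp Real.tendsto_log_atTop).eventually_ge_atTop 1,
    Real.tendsto_log_atTop.eventually_ge_atTop 1, eventually_ge_atTop 1] with T h1 h2 h3 h4 h5
  have hT0 : 0 < T := by linarith
  have hL0 : 0 < Real.log T := by linarith
  have h3' : 1 ≤ Real.log (Real.log T) := h3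
  have hLL0 : 0 < Real.log (Real.log T) := by linarith
  have p1 : Real.log T ^ (a - e / 2) ≤ f T / T := by
    rw [le_div_iff₀ hT0]; linarith
  have p2 : f T / T ≤ Real.log T ^ (a + e / 2) := by
    rw [div_le_iff₀ hT0]; linarith
  have p0 : 0 < f T / T := lt_of_lt_of_le (Real.rpow_pos_of_pos hL0 _) p1
  have q1 : (a - e / 2) * Real.log (Real.log T) ≤ Real.log (f T / T) := by
    have := Real.log_le_log (Real.rpow_pos_of_pos hL0 _) p1
    rwa [Real.log_rpow hL0] at this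
  have q2 : Real.log (f T / T) ≤ (a + e / 2) * Real.log (Real.log T) := by
    have := Real.log_le_log p0 p2
    rwa [Real.log_rpow hL0] at this
  rw [Real.dist_eq, abs_lt]
  constructor
  · have : a - e / 2 ≤ Real.log (f T / T) / Real.log (Real.log T) := by
      rw [le_div_iff₀ hLL0]; exact q1
    linarith
  · have : Real.log (f T / T) / Real.log (Real.log T) ≤ a + e / 2 := by
      rw [div_le_iff₀ hLL0]; exact q2
    linarith

/-- **the peaks of Hardy's function of each sign** -/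
theorem result :
    (∀ κ σ : ℝ, 0 ≤ κ → κ ≤ 2 → (σ = 1 ∨ σ = -1) →
      Tendsto (fun T : ℝ => Real.log (((high σ κ T).ncard : ℝ) / T) / Real.log (Real.log T))
        atTop (𝓝 (1 - κ ^ 2)) ∧
      Tendsto (fun T : ℝ => Real.log (((twins σ κ T).ncard : ℝ) / T) / Real.log (Real.log T))
        atTop (𝓝 (1 - κ ^ 2))) ∧
    (∀ κ ε σ : ℝ, 0 < ε → (σ = 1 ∨ σ = -1) → ∃ T₀ : ℝ, ∀ T : ℝ, T₀ ≤ T →
      T * Real.log T ^ (1 - κ ^ 2 - ε) ≤ ((twins σ κ T).ncard : ℝ)) ∧
    (∀ k σ : ℝ, 0 < k → k < 2 → (σ = 1 ∨ σ = -1) →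
      Tendsto (fun T : ℝ => Real.log (moment σ k T / T) / Real.log (Real.log T))
        atTop (𝓝 (k ^ 2 + 1))) ∧
    (∀ k ε σ : ℝ, 0 < k → 0 < ε → (σ = 1 ∨ σ = -1) → ∃ T₀ : ℝ, ∀ T : ℝ, T₀ ≤ T →
      T * Real.log T ^ (k ^ 2 + 1 - ε) ≤ moment σ k T) := by
  have hth : ∀ σ κ : ℝ, ∀ᶠ T : ℝ in atTop, ((twins σ κ T).ncard : ℝ) ≤ ((high σ κ T).ncard : ℝ) := by
    intro σ κ
    filter_upwards [eventually_gt_atTop 0] with T hT
    exact_mod_cast twins_le_high hT
  refine ⟨?_, ?_, ?_, ?_⟩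
  · intro κ σ h0 h2 hσ
    refine ⟨tendsto_of_bounds (fun ε hε => ?_) fun ε hε => high_le σ h0 h2 hε,
      tendsto_of_bounds (fun ε hε => twins_ge hσ κ hε) fun ε hε => ?_⟩
    · filter_upwards [twins_ge hσ κ hε, hth σ κ] with T h3 h4
      exact h3.trans h4
    · filter_upwards [high_le σ h0 h2 hε, hth σ κ] with T h3 h4
      exact h4.trans h3
  · intro κ ε σ hε hσ
    exact Filter.eventually_atTop.mp (twins_ge hσ κ hε)
  · intro k σ h0 h2 hσ
    exact tendsto_of_bounds (fun ε hε => moment_ge hσ h0 hε) fun ε hε => moment_le σ h0 h2 hε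
  · intro k ε σ hk hε hσ
    exact Filter.eventually_atTop.mp (moment_ge hσ hk hε)

end Pool.Agent.Results.MP_6a632e_nt.PeaksOfHardysFunction
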